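import Pool.Agent.H606.GU.Stm

/-! TASK FIS of project GU (helper606): positivity and Fischer's inequality. -/

open MeasureTheory Filter Topology Finset
open Pool.Agent.H606.GU
open scoped Matrix MatrixOrder

namespace Pool.Agent.H337.GU.FIS

lemma SK_neg (x : ℝ) : SK (-x) = SK x := by unfold SK; rw [mul_neg, Real.sinc_neg]

lemma SK_sub (x y : ℝ) : SK (x - y) = SK (y - x) := by rw [← neg_sub, SK_neg]

lemma SK_zero : SK 0 = 1 := by simp [SK]

lemma one_le_det {n : Type*} [Fintype n] [DecidableEq n] {Q : Matrix n n ℝ} (hQ : Q.PosSemidef) :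
    1 ≤ (1 + Q).det := by
  have hA : (1 + Q).IsHermitian := Matrix.isHermitian_one.add hQ.1
  rw [hA.det_eq_prod_eigenvalues]
  have h1 : (1 : ℝ) = ∏ _i : n, (1 : ℝ) := by simp
  rw [h1]
  refine Finset.prod_le_prod (fun i _ => zero_le_one) fun i _ => ?_
  rw [RCLike.ofReal_real_eq_id, id, hA.eigenvalues_eq i, Matrix.add_mulVec, Matrix.one_mulVec,
    dotProduct_add]
  set v := hA.eigenvectorBasis i with hv
  have h2 : star (⇑v : n → ℝ) ⬝ᵥ (⇑v : n → ℝ) = 1 := by
    rw [dotProduct_comm, ← EuclideanSpace.inner_eq_star_dotProduct, real_inner_self_eq_norm_sq,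
      hv, hA.eigenvectorBasis.orthonormal.1 i, one_pow]
  have h3 := hQ.dotProduct_mulVec_nonneg (⇑v : n → ℝ)
  rw [RCLike.re_to_real, h2]
  linarith

lemma det_mono_pd {n : Type*} [Fintype n] [DecidableEq n] {S P : Matrix n n ℝ} (hS : S.PosDef)
    (hP : P.PosSemidef) : S.det ≤ (S + P).det := by
  obtain ⟨B, hB⟩ := CStarAlgebra.nonneg_iff_eq_star_mul_self.mp hS.posSemidef.nonneg
  have hd : S.det ≠ 0 := hS.det_pos.ne'
  have hBd : IsUnit B.det := by
    rw [isUnit_iff_ne_zero]
    intro h
    apply hd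
    rw [hB, Matrix.det_mul, h, mul_zero]
  have hQ : ((B⁻¹)ᴴ * P * B⁻¹).PosSemidef := hP.conjTranspose_mul_mul_same _
  have h1 : S + P = star B * (1 + (B⁻¹)ᴴ * P * B⁻¹) * B := by
    have h2 : star B * (B⁻¹)ᴴ = 1 := by
      rw [Matrix.star_eq_conjTranspose, ← Matrix.conjTranspose_mul, Matrix.nonsing_inv_mul _ hBd,
        Matrix.conjTranspose_one]
    have h3 : B⁻¹ * B = 1 := Matrix.nonsing_inv_mul _ hBd
    calc S + P = star B * B + (star B * (B⁻¹)ᴴ) * P * (B⁻¹ * B) := by
          rw [h2, h3, one_mul, mul_one, ← hB]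
      _ = _ := by noncomm_ring
  have h4 : (star B).det * B.det = S.det := by rw [← Matrix.det_mul, ← hB]
  rw [h1, Matrix.det_mul, Matrix.det_mul]
  have h5 := one_le_det hQ
  have h6 : (star B).det * (1 + (B⁻¹)ᴴ * P * B⁻¹).det * B.det =
      S.det * (1 + (B⁻¹)ᴴ * P * B⁻¹).det := by rw [← h4]; ring
  rw [h6]
  exact le_mul_of_one_le_right hS.det_pos.le h5

lemma det_mono {n : Type*} [Fintype n] [DecidableEq n] {S P : Matrix n n ℝ} (hS : S.PosSemidef)
    (hP : P.PosSemidef) : S.det ≤ (S + P).det := by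
  by_cases h : S.det = 0
  · rw [h]; exact (hS.add hP).det_nonneg
  · exact det_mono_pd (hS.posDef_iff_det_ne_zero.2 h) hP

lemma fischer {m n : Type*} [Fintype m] [DecidableEq m] [Fintype n] [DecidableEq n]
    {A : Matrix m m ℝ} {B : Matrix m n ℝ} {D : Matrix n n ℝ}
    (h : (Matrix.fromBlocks A B Bᴴ D).PosSemidef) :
    (Matrix.fromBlocks A B Bᴴ D).det ≤ A.det * D.det := by
  have hA : A.PosSemidef := by
    have := h.submatrix (Sum.inl : m → m ⊕ n)
    exact this
  have hD : D.PosSemidef := by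
    have := h.submatrix (Sum.inr : n → m ⊕ n)
    exact this
  by_cases h0 : A.det = 0
  · rw [h0, zero_mul]
    by_contra hlt
    push Not at hlt
    have hpd : (Matrix.fromBlocks A B Bᴴ D).PosDef := h.posDef_iff_det_ne_zero.2 hlt.ne'
    have := hpd.submatrix (e := (Sum.inl : m → m ⊕ n)) Sum.inl_injective
    have h2 : A.PosDef := this
    exact h2.det_pos.ne' h0
  · have hApd : A.PosDef := hA.posDef_iff_det_ne_zero.2 h0
    let _ := hApd.isUnit.invertible
    rw [Matrix.det_fromBlocks₁₁]
    refine mul_le_mul_of_nonneg_left ?_ hApd.det_pos.le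
    have hS : (D - Bᴴ * A⁻¹ * B).PosSemidef := (Matrix.PosDef.fromBlocks₁₁ B D hApd).1 h
    have hP : (Bᴴ * A⁻¹ * B).PosSemidef := hApd.inv.posSemidef.conjTranspose_mul_mul_same B
    have := det_mono hS hP
    rw [sub_add_cancel] at this
    rw [Matrix.invOf_eq_nonsing_inv]
    exact this

lemma KM_herm {α : Type} (y : α → ℝ) : (KM y).IsHermitian := by
  refine Matrix.IsHermitian.ext fun i j => ?_
  simp only [KM, Matrix.of_apply, star_trivial]
  exact SK_sub _ _

lemma KM_psd (hREP : S_REP) {α : Type} [Fintype α] (y : α → ℝ) :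
    (KM y).PosSemidef := by
  refine Matrix.PosSemidef.of_dotProduct_mulVec_nonneg (KM_herm y) fun x => ?_
  have h1 : star x ⬝ᵥ (KM y *ᵥ x) = ∫ t, (∑ i, x i * SK (t - y i)) ^ 2 := by
    have h2 : ∀ t, (∑ i, x i * SK (t - y i)) ^ 2 =
        ∑ i, ∑ j, (x i * x j) * (SK (t - y i) * SK (t - y j)) := by
      intro t
      rw [sq, Finset.sum_mul_sum]
      refine Finset.sum_congr rfl fun i _ => Finset.sum_congr rfl fun j _ => ?_
      ring
    simp_rw [h2]
    rw [integral_finsetSum _ fun i _ => integrable_finsetSum _ fun j _ =>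
      ((hREP (y i) (y j)).1.const_mul _)]
    simp only [dotProduct, Matrix.mulVec, KM, Matrix.of_apply, star_trivial, Finset.mul_sum]
    refine Finset.sum_congr rfl fun i _ => ?_
    rw [integral_finsetSum _ fun j _ => ((hREP (y i) (y j)).1.const_mul _)]
    refine Finset.sum_congr rfl fun j _ => ?_
    rw [integral_const_mul, (hREP (y i) (y j)).2]
    ring
  rw [h1]
  exact integral_nonneg fun t => sq_nonneg _

theorem t_FIS (hREP : S_REP) (hRHO : S_RHO) : S_FIS := by
  obtain ⟨-, hre, -, huniq, -⟩ := hRHO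
  have hnn : ∀ (α : Type) [Fintype α] [DecidableEq α] (y : α → ℝ), 0 ≤ rho y :=
    fun α _ _ y => (KM_psd hREP y).det_nonneg
  have h2 : ∀ (α β : Type) [Fintype α] [DecidableEq α] [Fintype β] [DecidableEq β]
      (y : α ⊕ β → ℝ),
      rho y ≤ rho (fun i => y (Sum.inl i)) * rho (fun i => y (Sum.inr i)) := by
    intro α β _ _ _ _ y
    have he : KM y = Matrix.fromBlocks (KM fun i => y (Sum.inl i))
        (Matrix.of fun i j => SK (y (Sum.inl i) - y (Sum.inr j)))
        (Matrix.of fun i j => SK (y (Sum.inl i) - y (Sum.inr j)))ᴴ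
        (KM fun i => y (Sum.inr i)) := by
      ext i j
      rcases i with i | i <;> rcases j with j | j
      · rfl
      · rfl
      · simp only [KM, Matrix.of_apply, Matrix.fromBlocks_apply₂₁, Matrix.conjTranspose_apply,
          star_trivial]
        exact SK_sub _ _
      · rfl
    have hp := KM_psd hREP y
    unfold rho
    rw [he] at hp ⊢
    exact fischer hp
  have h3 : ∀ (j : ℕ) (α : Type) [Fintype α] [DecidableEq α] (y : Fin j × α → ℝ),
      rho y ≤ ∏ l : Fin j, rho (fun i => y (l, i)) := by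
    intro j
    induction j with
    | zero =>
      intro α _ _ y
      rw [Fin.prod_univ_zero]
      unfold rho
      rw [Matrix.det_isEmpty]
    | succ j ih =>
      intro α _ _ y
      let e : α ⊕ (Fin j × α) ≃ Fin (j + 1) × α :=
        { toFun := Sum.elim (fun i => (0, i)) (fun p => (p.1.succ, p.2))
          invFun := fun p => Fin.cases (motive := fun _ => α ⊕ (Fin j × α)) (Sum.inl p.2)
            (fun l => Sum.inr (l, p.2)) p.1
          left_inv := by
            rintro (i | ⟨l, i⟩)
            · rfl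
            · rfl
          right_inv := by
            rintro ⟨l, i⟩
            refine Fin.cases ?_ (fun l => ?_) l
            · rfl
            · rfl }
      rw [← hre _ _ e y, Fin.prod_univ_succ]
      refine (h2 _ _ _).trans ?_
      refine mul_le_mul_of_nonneg_left ?_ (hnn _ _)
      exact ih α fun p => y (p.1.succ, p.2)
  refine ⟨fun α _ _ y => ⟨KM_psd hREP y, hnn α y, ?_⟩, h2, h3, ?_⟩
  · let e : Fin (Fintype.card α) × Unit ≃ α := (Equiv.prodPUnit _).trans (Fintype.equivFin α).symm
    rw [← hre _ _ e y]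
    refine (h3 _ _ _).trans (le_of_eq ?_)
    exact Finset.prod_eq_one fun l _ => huniq _ _
  · intro k y v
    rw [← hre _ _ (finSumFinEquiv (m := k) (n := 1)) (sn y v)]
    refine (h2 _ _ _).trans (le_of_eq ?_)
    rw [huniq (Fin 1), mul_one]
    congr 1
    funext i
    simp only [finSumFinEquiv_apply_left, sn]
    exact Fin.snoc_castSucc (α := fun _ => ℝ) (x := v) (p := y) (i := i)

end Pool.Agent.H337.GU.FIS
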